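import Pool.Agent.Y400.SG.Final

set_option autoImplicit false

namespace Pool.Agent.Y400.SG

open Pool.Agent.W823.SFP MeasureTheory ProbabilityTheory Filter

/-- The quantile function of a law with `F_L(t) ≥ c t^κ` near `0` is integrable in the sense
`I(L) < ∞`. -/
theorem integrable_quantile' (μ : Measure ℝ) [IsProbabilityMeasure μ] (κ c : ℝ) (hκ : 0 < κ)
    (hc : 0 < c) (h0 : μ (Set.Iic 0) = 0)
    (hlo : ∀ t : ℝ, 0 < t → t ≤ 1 → ENNReal.ofReal (c * t ^ κ) ≤ μ (Set.Iic t)) :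
    IntegrableOn (fun y => quantile μ (Real.exp (-Real.exp y))) (Set.Ioi 0) := by
  have hF0 : ∀ u t : ℝ, 0 < u → u ≤ (μ (Set.Iic t)).toReal → 0 < t := by
    intro u t hu ht
    by_contra hcon
    have : μ (Set.Iic t) = 0 := measure_mono_null (Set.Iic_subset_Iic.2 (not_lt.1 hcon)) h0
    rw [this] at ht
    simp at ht
    linarith
  have hbdd : ∀ u : ℝ, 0 < u → BddBelow {t : ℝ | u ≤ (μ (Set.Iic t)).toReal} := fun u hu =>
    ⟨0, fun t ht => (hF0 u t hu ht).le⟩
  have hne : ∀ u : ℝ, u < 1 → ({t : ℝ | u ≤ (μ (Set.Iic t)).toReal}).Nonempty := by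
    intro u hu
    have ht : Tendsto (fun t : ℝ => (μ (Set.Iic t)).toReal) atTop (nhds 1) := by
      have h1 := tendsto_measure_Iic_atTop μ
      rw [measure_univ] at h1
      have h2 := (ENNReal.tendsto_toReal (by simp : (1 : ENNReal) ≠ ⊤)).comp h1
      simpa [Function.comp_def] using h2
    obtain ⟨t, ht'⟩ := (ht.eventually_const_le hu).exists
    exact ⟨t, ht'⟩
  have hq0 : ∀ u : ℝ, 0 < u → u < 1 → 0 ≤ quantile μ u := fun u hu hu1 =>
    le_csInf (hne u hu1) fun t ht => (hF0 u t hu ht).le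
  have hqmono : ∀ u w : ℝ, 0 < u → u ≤ w → w < 1 → quantile μ u ≤ quantile μ w := fun u w hu huw hw =>
    csInf_le_csInf (hbdd u hu) (hne w hw) fun t ht => huw.trans ht
  have hqle : ∀ u : ℝ, 0 < u → u ≤ c → quantile μ u ≤ (u / c) ^ (1 / κ) := by
    intro u hu huc
    apply csInf_le (hbdd u hu)
    simp only [Set.mem_ofPred_eq]
    have h1 : 0 < u / c := by positivity
    have h2 : u / c ≤ 1 := (div_le_one hc).2 huc
    have h3 := hlo ((u / c) ^ (1 / κ)) (by positivity) (Real.rpow_le_one h1.le h2 (by positivity))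
    rw [← Real.rpow_mul h1.le, one_div_mul_cancel hκ.ne', Real.rpow_one, mul_div_cancel₀ _ hc.ne'] at h3
    exact (ENNReal.ofReal_le_iff_le_toReal (measure_ne_top _ _)).1 h3
  have hanti : AntitoneOn (fun y => quantile μ (Real.exp (-Real.exp y))) (Set.Ioi 0) := by
    intro y hy z hz hyz
    apply hqmono _ _ (Real.exp_pos _)
    · apply Real.exp_le_exp.2
      have := Real.exp_le_exp.2 hyz
      linarith
    · rw [Real.exp_lt_one_iff]; linarith [Real.exp_pos y]
  set M : ℝ := quantile μ (Real.exp (-1)) + (1 / c) ^ (1 / κ) with hM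
  have he1 : Real.exp (-1) < 1 := by rw [Real.exp_lt_one_iff]; norm_num
  have hMq := hq0 (Real.exp (-1)) (Real.exp_pos _) he1
  -- for large `y` the argument is at most `c`
  obtain ⟨y0, hy0⟩ : ∃ y0 : ℝ, 0 < y0 ∧ ∀ y, y0 ≤ y → Real.exp (-Real.exp y) ≤ c := by
    have ht : Tendsto (fun y : ℝ => Real.exp (-Real.exp y)) atTop (nhds 0) :=
      Real.tendsto_exp_atBot.comp (tendsto_neg_atTop_atBot.comp Real.tendsto_exp_atTop)
    obtain ⟨y1, hy1⟩ := eventually_atTop.1 (ht.eventually_le_const hc)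
    exact ⟨max 1 y1, lt_of_lt_of_le one_pos (le_max_left _ _), fun y hy => hy1 y ((le_max_right _ _).trans hy)⟩
  have hexp : ∀ y : ℝ, 0 < y → Real.exp (-Real.exp y) ≤ Real.exp (-1) := by
    intro y hy
    apply Real.exp_le_exp.2
    have := Real.add_one_le_exp y
    linarith
  have hbig : ∀ y : ℝ, 0 < y → quantile μ (Real.exp (-Real.exp y)) ≤
      (quantile μ (Real.exp (-1)) * Real.exp (y0 / κ) + (1 / c) ^ (1 / κ)) * Real.exp (-(1 / κ) * y) := by
    intro y hy
    rcases le_total y y0 with hyy | hyy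
    · have h1 := hqmono _ _ (Real.exp_pos _) (hexp y hy) he1
      have h2 : 1 ≤ Real.exp (y0 / κ) * Real.exp (-(1 / κ) * y) := by
        rw [← Real.exp_add]
        apply Real.one_le_exp
        have : y0 / κ + -(1 / κ) * y = (y0 - y) / κ := by ring
        rw [this]
        apply div_nonneg (by linarith) hκ.le
      have h3 : 0 ≤ (1 / c) ^ (1 / κ) * Real.exp (-(1 / κ) * y) := by positivity
      nlinarith
    · have h1 := hqle _ (Real.exp_pos (-Real.exp y)) (hy0.2 y hyy)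
      have h2 : (Real.exp (-Real.exp y) / c) ^ (1 / κ) ≤ (1 / c) ^ (1 / κ) * Real.exp (-(1 / κ) * y) := by
        have h21 : Real.exp (-Real.exp y) / c ≤ 1 / c * Real.exp (-y) := by
          have : Real.exp (-Real.exp y) ≤ Real.exp (-y) := by
            apply Real.exp_le_exp.2
            linarith [Real.add_one_le_exp y]
          rw [div_mul_eq_mul_div, one_mul]
          gcongr
        calc _ ≤ (1 / c * Real.exp (-y)) ^ (1 / κ) :=
              Real.rpow_le_rpow (by positivity) h21 (by positivity)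
          _ = _ := by
              rw [Real.mul_rpow (by positivity) (Real.exp_pos _).le, ← Real.exp_mul]
              congr 2; ring
      have h3 : 0 ≤ quantile μ (Real.exp (-1)) * Real.exp (y0 / κ) * Real.exp (-(1 / κ) * y) := by
        positivity
      nlinarith
  have hg : IntegrableOn (fun y : ℝ => (quantile μ (Real.exp (-1)) * Real.exp (y0 / κ) +
      (1 / c) ^ (1 / κ)) * Real.exp (-(1 / κ) * y)) (Set.Ioi 0) :=
    (exp_neg_integrableOn_Ioi 0 (by positivity)).const_mul _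
  refine Integrable.mono' hg ?_ ?_
  · exact (aemeasurable_restrict_of_antitoneOn measurableSet_Ioi hanti).aestronglyMeasurable
  · rw [ae_restrict_iff' measurableSet_Ioi]
    filter_upwards with y hy
    have hy' : (0 : ℝ) < y := hy
    rw [Real.norm_of_nonneg (hq0 _ (Real.exp_pos _) (by rw [Real.exp_lt_one_iff]; linarith [Real.exp_pos y]))]
    exact hbig y hy'

/-- A power `x ^ θ`, `θ < 1`, is below every linear function, up to a constant. -/
theorem pow_le_lin (θ G r : ℝ) (hθ0 : 0 ≤ θ) (hθ1 : θ < 1) (hG : 0 ≤ G) (hr : 0 < r) :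
    ∃ K : ℝ, 0 ≤ K ∧ ∀ x : ℝ, 0 < x → G * x ^ θ ≤ K + r * x := by
  have h0 : ∀ᶠ Y : ℝ in atTop, Y ^ (-(1 - θ)) ≤ r / (G + 1) :=
    (tendsto_rpow_neg_atTop (show 0 < 1 - θ by linarith)).eventually_le_const (by positivity)
  obtain ⟨Y, hY1, hY2⟩ := ((eventually_ge_atTop (1 : ℝ)).and h0).exists
  have hY0 : 0 < Y := by linarith
  refine ⟨G * Y ^ θ, by positivity, fun x hx => ?_⟩
  rcases le_total x Y with h | h
  · have h1 : x ^ θ ≤ Y ^ θ := Real.rpow_le_rpow hx.le h hθ0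
    have h2 : G * x ^ θ ≤ G * Y ^ θ := by gcongr
    have h3 : 0 ≤ r * x := by positivity
    linarith
  · have h1 : x ^ (-(1 - θ)) ≤ Y ^ (-(1 - θ)) :=
      Real.rpow_le_rpow_of_nonpos hY0 h (by linarith)
    have h2 : x ^ θ = x * x ^ (-(1 - θ)) := by
      calc x ^ θ = x ^ (1 + -(1 - θ)) := by congr 1; ring
        _ = x ^ (1 : ℝ) * x ^ (-(1 - θ)) := Real.rpow_add hx _ _
        _ = _ := by rw [Real.rpow_one]
    have h3 : G * x ^ θ ≤ r * x := by
      rw [h2]
      calc G * (x * x ^ (-(1 - θ))) ≤ (G + 1) * (x * (r / (G + 1))) := by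
            have : x ^ (-(1 - θ)) ≤ r / (G + 1) := h1.trans hY2
            gcongr; linarith
        _ = r * x := by field_simp
    have h4 : 0 ≤ G * Y ^ θ := by positivity
    linarith

/-- The deviation allowed in class `j`. -/
noncomputable def gf (G θ : ℝ) (j : ℕ) : ℝ := Real.exp (G * ((j : ℝ) + 1) ^ θ)

theorem gf_one (G θ : ℝ) (hG : 0 ≤ G) (j : ℕ) : 1 ≤ gf G θ j := by
  unfold gf
  exact Real.one_le_exp (by positivity)

theorem gf_mono (G θ : ℝ) (hθ : 0 ≤ θ) (hG : 0 ≤ G) : Monotone (gf G θ) := by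
  intro i j hij
  unfold gf
  apply Real.exp_le_exp.2
  have : (i : ℝ) ≤ j := by exact_mod_cast hij
  have h1 : ((i : ℝ) + 1) ^ θ ≤ ((j : ℝ) + 1) ^ θ :=
    Real.rpow_le_rpow (by positivity) (by linarith) hθ
  gcongr

theorem gf_sub (G θ : ℝ) (hθ0 : 0 ≤ θ) (hθ1 : θ < 1) (hG : 0 ≤ G) (i j : ℕ) :
    gf G θ (i + j) ≤ gf G θ i * gf G θ j := by
  unfold gf
  rw [← Real.exp_add]
  apply Real.exp_le_exp.2
  have h1 : (((i + j : ℕ) : ℝ) + 1) ^ θ ≤ ((i : ℝ) + 1) ^ θ + ((j : ℝ) + 1) ^ θ := by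
    calc (((i + j : ℕ) : ℝ) + 1) ^ θ ≤ (((i : ℝ) + 1) + ((j : ℝ) + 1)) ^ θ := by
          apply Real.rpow_le_rpow (by positivity) _ hθ0
          push_cast; linarith
      _ ≤ _ := Real.rpow_add_le_add_rpow (by positivity) (by positivity) hθ0 hθ1.le
  calc G * (((i + j : ℕ) : ℝ) + 1) ^ θ ≤ G * (((i : ℝ) + 1) ^ θ + ((j : ℝ) + 1) ^ θ) := by gcongr
    _ = _ := by ring

theorem gf_sum (G θ : ℝ) (hθ0 : 0 ≤ θ) (hθ1 : θ < 1) (hG : 0 ≤ G) (r : ℝ) (hr : 0 < r) :
    ∃ K : ℝ, ∀ j : ℕ, gf G θ j ≤ K * (2 : ℝ) ^ (r * j) := by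
  have hlog2 : 0 < Real.log 2 := Real.log_pos (by norm_num)
  obtain ⟨K, hK0, hK⟩ := pow_le_lin θ G (r * Real.log 2) hθ0 hθ1 hG (by positivity)
  refine ⟨Real.exp (K + r * Real.log 2), fun j => ?_⟩
  unfold gf
  rw [Real.rpow_def_of_pos (show (0 : ℝ) < 2 by norm_num), ← Real.exp_add]
  apply Real.exp_le_exp.2
  have := hK ((j : ℝ) + 1) (by positivity)
  linarith

/-- `(1 + L) ^ θ ≤ m (j + 1) ^ θ` if `L ≤ j * a` and `m ≥ 1, a`. -/
theorem pow_log_le (θ : ℝ) (hθ0 : 0 ≤ θ) (hθ1 : θ < 1) {a m L : ℝ} (hm1 : 1 ≤ m) (hma : a ≤ m)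
    (hL0 : 0 ≤ L) (j : ℕ) (hL : L ≤ j * a) : (1 + L) ^ θ ≤ m * ((j : ℝ) + 1) ^ θ := by
  have hj : (0 : ℝ) ≤ j := Nat.cast_nonneg j
  have h1 : 1 + L ≤ m * (j + 1) := by nlinarith
  calc (1 + L) ^ θ ≤ (m * (j + 1)) ^ θ := Real.rpow_le_rpow (by linarith) h1 hθ0
    _ = m ^ θ * ((j : ℝ) + 1) ^ θ := Real.mul_rpow (by linarith) (by positivity)
    _ ≤ m ^ (1 : ℝ) * ((j : ℝ) + 1) ^ θ := by
        apply mul_le_mul_of_nonneg_right _ (by positivity)
        exact Real.rpow_le_rpow_of_exponent_le hm1 hθ1.le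
    _ = _ := by rw [Real.rpow_one]

theorem log_th_le {β : ℝ} (hβ : 0 < β) (j : ℕ) : Real.log (th β j) ≤ j * (1 / β) := by
  unfold th
  rw [Real.log_rpow (by norm_num)]
  have hl2 : Real.log 2 ≤ 1 := by have := Real.log_two_lt_d9; linarith
  have h0 : 0 ≤ (j : ℝ) / β := by positivity
  calc (j : ℝ) / β * Real.log 2 ≤ (j : ℝ) / β * 1 := by gcongr
    _ = _ := by ring

/-- From the laws to the classes. -/
theorem hyp_of_laws (d : ℕ) (hd : 1 ≤ d) (α lam τ κ θ C : ℝ) (hα : (d : ℝ) < α) (hlam : 0 < lam)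
    (hτ : 1 < τ) (hγ1 : 1 < α * (τ - 1) / d) (hγ2 : α * (τ - 1) / d < 2)
    (hκ : 0 < κ) (hθ0 : 0 ≤ θ) (hθ1 : θ < 1) (hC : 0 ≤ C) (μW μL : Measure ℝ)
    [IsProbabilityMeasure μW] [IsProbabilityMeasure μL]
    (hW1 : μW (Set.Ici 1) = 1)
    (hW : ∀ t : ℝ, 1 ≤ t →
      ENNReal.ofReal (t ^ (-(τ - 1)) * Real.exp (-(C * (1 + Real.log t) ^ θ))) ≤ μW (Set.Ioi t) ∧
      μW (Set.Ioi t) ≤ ENNReal.ofReal (t ^ (-(τ - 1)) * Real.exp (C * (1 + Real.log t) ^ θ)))
    (hL : ∀ t : ℝ, 0 < t → t ≤ 1 →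
      ENNReal.ofReal (t ^ κ * Real.exp (-(C * (1 + Real.log (1 / t)) ^ θ))) ≤ μL (Set.Iic t) ∧
      μL (Set.Iic t) ≤ ENNReal.ofReal (t ^ κ * Real.exp (C * (1 + Real.log (1 / t)) ^ θ))) :
    ∃ G : ℝ, 0 ≤ G ∧ Hyp d α lam (τ - 1) κ (gf G θ) μW μL := by
  have hd' : (1 : ℝ) ≤ d := by exact_mod_cast hd
  have hd0 : (0 : ℝ) < d := by linarith
  have hβ : 0 < τ - 1 := by linarith
  set β := τ - 1 with hβd
  set m1 : ℝ := max 1 (1 / β) with hm1
  set m2 : ℝ := max 1 (1 / κ) with hm2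
  have hm11 : 1 ≤ m1 := le_max_left _ _
  have hm21 : 1 ≤ m2 := le_max_left _ _
  set G : ℝ := β + C * m1 + C * m2 with hG
  have hCm1 : 0 ≤ C * m1 := by positivity
  have hCm2 : 0 ≤ C * m2 := by positivity
  have hG0 : 0 ≤ G := by positivity
  have hpw : ∀ j : ℕ, 1 ≤ ((j : ℝ) + 1) ^ θ := fun j =>
    Real.one_le_rpow (by have : (0 : ℝ) ≤ j := Nat.cast_nonneg j
                         linarith) hθ0
  have hthp : ∀ j : ℕ, th β j ^ (-β) = (2 : ℝ) ^ (-(j : ℝ)) := by
    intro j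
    unfold th
    rw [← Real.rpow_mul (by norm_num)]
    congr 1
    field_simp
  have hthlog : ∀ j : ℕ, C * (1 + Real.log (th β j)) ^ θ ≤ C * m1 * ((j : ℝ) + 1) ^ θ := by
    intro j
    have h1 := pow_log_le θ hθ0 hθ1 hm11 (le_max_right 1 (1 / β))
      (Real.log_nonneg (one_le_th hβ j)) j (log_th_le hβ j)
    calc C * (1 + Real.log (th β j)) ^ θ ≤ C * (m1 * ((j : ℝ) + 1) ^ θ) := by gcongr
      _ = _ := by ring
  have hxlog : ∀ (j : ℕ) (x : ℝ), (2 : ℝ) ^ (-(j : ℝ)) ≤ x → x ≤ 1 →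
      C * (1 + Real.log (1 / x ^ (1 / κ))) ^ θ ≤ C * m2 * ((j : ℝ) + 1) ^ θ := by
    intro j x hx hx1
    have hx0 : 0 < x := lt_of_lt_of_le (by positivity) hx
    have hlx : Real.log (1 / x ^ (1 / κ)) = 1 / κ * Real.log (1 / x) := by
      rw [one_div (x ^ (1 / κ)), Real.log_inv, Real.log_rpow hx0, one_div x, Real.log_inv]; ring
    have hl0 : 0 ≤ Real.log (1 / x) := Real.log_nonneg ((one_le_div hx0).2 hx1)
    have hl1 : Real.log (1 / x) ≤ j := by
      have e1 : 1 / x ≤ (2 : ℝ) ^ (j : ℝ) := by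
        rw [div_le_iff₀ hx0]
        calc (1 : ℝ) = (2 : ℝ) ^ (j : ℝ) * (2 : ℝ) ^ (-(j : ℝ)) := by
              rw [← Real.rpow_add (by norm_num)]; simp
          _ ≤ _ := by gcongr
      have e2 := Real.log_le_log (by positivity) e1
      rw [Real.log_rpow (by norm_num)] at e2
      have hl2 : Real.log 2 ≤ 1 := by have := Real.log_two_lt_d9; linarith
      have hj : (0 : ℝ) ≤ j := Nat.cast_nonneg j
      nlinarith
    have h1 := pow_log_le θ hθ0 hθ1 hm21 (le_max_right 1 (1 / κ))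
      (L := Real.log (1 / x ^ (1 / κ))) (by rw [hlx]; positivity) j (by
        rw [hlx, mul_comm]; gcongr)
    calc C * (1 + Real.log (1 / x ^ (1 / κ))) ^ θ ≤ C * (m2 * ((j : ℝ) + 1) ^ θ) := by gcongr
      _ = _ := by ring
  have hxk : ∀ x : ℝ, 0 < x → (x ^ (1 / κ)) ^ κ = x := by
    intro x hx
    rw [← Real.rpow_mul hx.le, one_div_mul_cancel hκ.ne', Real.rpow_one]
  refine ⟨G, hG0, ⟨hd, hα, hlam, hβ, ?_, ?_, inferInstance, inferInstance, hκ, gf_one G θ hG0,
    gf_mono G θ hθ0 hG0, gf_sub G θ hθ0 hθ1 hG0, gf_sum G θ hθ0 hθ1 hG0, hW1, ?_, ?_, ?_, ?_⟩⟩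
  · rwa [one_lt_div hd0] at hγ1
  · rwa [div_lt_iff₀ hd0] at hγ2
  · intro j
    have h1 := (hW (th β j) (one_le_th hβ j)).1
    refine le_trans (ENNReal.ofReal_le_ofReal ?_) (h1.trans (measure_mono Set.Ioi_subset_Ici_self))
    rw [hthp, div_eq_mul_inv]
    unfold gf
    rw [← Real.exp_neg]
    apply mul_le_mul_of_nonneg_left _ (by positivity)
    apply Real.exp_le_exp.2
    apply neg_le_neg
    have e1 := hthlog j
    have e2 := hpw j
    calc C * (1 + Real.log (th β j)) ^ θ ≤ C * m1 * ((j : ℝ) + 1) ^ θ := e1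
      _ ≤ G * ((j : ℝ) + 1) ^ θ := by
          apply mul_le_mul_of_nonneg_right _ (by linarith)
          rw [hG]; linarith
  · intro j
    have ht1 := one_le_th hβ j
    set t := th β j with ht
    have ht0 : 0 < t := by linarith
    have e2 := hpw j
    rcases le_total 2 t with h2 | h2
    · have h3 := (hW (t / 2) (by linarith)).2
      have h4 : Set.Ici t ⊆ Set.Ioi (t / 2) := fun x hx => by
        simp only [Set.mem_Ici, Set.mem_Ioi] at *; linarith
      refine (measure_mono h4).trans (h3.trans (ENNReal.ofReal_le_ofReal ?_))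
      rw [Real.div_rpow ht0.le (by norm_num), Real.rpow_neg (by norm_num : (0 : ℝ) ≤ 2), hthp]
      have e3 : (2 : ℝ) ^ β ≤ Real.exp (β * ((j : ℝ) + 1) ^ θ) := by
        rw [Real.rpow_def_of_pos (show (0 : ℝ) < 2 by norm_num)]
        apply Real.exp_le_exp.2
        have hl2 : Real.log 2 ≤ 1 := by have := Real.log_two_lt_d9; linarith
        calc Real.log 2 * β ≤ 1 * β := by gcongr
          _ = β * 1 := by ring
          _ ≤ _ := by gcongr
      have e4 : Real.exp (C * (1 + Real.log (t / 2)) ^ θ) ≤ Real.exp (C * m1 * ((j : ℝ) + 1) ^ θ) := by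
        apply Real.exp_le_exp.2
        refine le_trans ?_ (hthlog j)
        have e5 : 0 ≤ Real.log (t / 2) := Real.log_nonneg (by linarith)
        have e6 : Real.log (t / 2) ≤ Real.log t := Real.log_le_log (by positivity) (by linarith)
        have e7 : (1 + Real.log (t / 2)) ^ θ ≤ (1 + Real.log t) ^ θ :=
          Real.rpow_le_rpow (by linarith) (by linarith) hθ0
        gcongr
      calc (2 : ℝ) ^ (-(j : ℝ)) / ((2 : ℝ) ^ β)⁻¹ * Real.exp (C * (1 + Real.log (t / 2)) ^ θ)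
          = (2 : ℝ) ^ (-(j : ℝ)) * ((2 : ℝ) ^ β * Real.exp (C * (1 + Real.log (t / 2)) ^ θ)) := by
            field_simp
        _ ≤ (2 : ℝ) ^ (-(j : ℝ)) * (Real.exp (β * ((j : ℝ) + 1) ^ θ) * Real.exp (C * m1 * ((j : ℝ) + 1) ^ θ)) := by
            gcongr
        _ = (2 : ℝ) ^ (-(j : ℝ)) * Real.exp ((β + C * m1) * ((j : ℝ) + 1) ^ θ) := by
            rw [← Real.exp_add]; congr 2; ring
        _ ≤ (2 : ℝ) ^ (-(j : ℝ)) * gf G θ j := by
            unfold gf
            apply mul_le_mul_of_nonneg_left _ (by positivity)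
            apply Real.exp_le_exp.2
            apply mul_le_mul_of_nonneg_right _ (by linarith)
            rw [hG]; linarith
        _ = _ := by ring
    · refine prob_le_one.trans ?_
      rw [ENNReal.one_le_ofReal]
      have h5 : (2 : ℝ) ^ (-β) ≤ t ^ (-β) := Real.rpow_le_rpow_of_nonpos ht0 h2 (by linarith)
      rw [hthp] at h5
      have h6 : (2 : ℝ) ^ β * 2 ^ (-β) = 1 := by
        rw [← Real.rpow_add (by norm_num)]; simp
      have e3 : (2 : ℝ) ^ β ≤ gf G θ j := by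
        unfold gf
        rw [Real.rpow_def_of_pos (show (0 : ℝ) < 2 by norm_num)]
        apply Real.exp_le_exp.2
        have hl2 : Real.log 2 ≤ 1 := by have := Real.log_two_lt_d9; linarith
        calc Real.log 2 * β ≤ 1 * β := by gcongr
          _ = β * 1 := by ring
          _ ≤ G * ((j : ℝ) + 1) ^ θ := by
              apply mul_le_mul _ e2 (by norm_num) hG0
              rw [hG]; linarith
      calc (1 : ℝ) = (2 : ℝ) ^ β * 2 ^ (-β) := h6.symm
        _ ≤ gf G θ j * (2 : ℝ) ^ (-(j : ℝ)) :=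
          mul_le_mul e3 h5 (by positivity) (by linarith [gf_one G θ hG0 j])
  · intro j x hx hx1
    have hx0 : 0 < x := lt_of_lt_of_le (by positivity) hx
    have ht0 : 0 < x ^ (1 / κ) := by positivity
    have ht1 : x ^ (1 / κ) ≤ 1 := Real.rpow_le_one hx0.le hx1 (by positivity)
    refine le_trans (ENNReal.ofReal_le_ofReal ?_) (hL _ ht0 ht1).1
    rw [hxk x hx0, div_eq_mul_inv]
    unfold gf
    rw [← Real.exp_neg]
    apply mul_le_mul_of_nonneg_left _ hx0.le
    apply Real.exp_le_exp.2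
    apply neg_le_neg
    have e2 := hpw j
    refine (hxlog j x hx hx1).trans ?_
    apply mul_le_mul_of_nonneg_right _ (by linarith)
    rw [hG]; linarith
  · intro j x hx
    have hx0 : 0 < x := lt_of_lt_of_le (by positivity) hx
    rcases le_total x 1 with hx1 | hx1
    · have ht0 : 0 < x ^ (1 / κ) := by positivity
      have ht1 : x ^ (1 / κ) ≤ 1 := Real.rpow_le_one hx0.le hx1 (by positivity)
      refine le_trans (hL _ ht0 ht1).2 (ENNReal.ofReal_le_ofReal ?_)
      rw [hxk x hx0, mul_comm]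
      unfold gf
      apply mul_le_mul_of_nonneg_right _ hx0.le
      apply Real.exp_le_exp.2
      have e2 := hpw j
      refine (hxlog j x hx hx1).trans ?_
      apply mul_le_mul_of_nonneg_right _ (by linarith)
      rw [hG]; linarith
    · refine prob_le_one.trans ?_
      rw [ENNReal.one_le_ofReal]
      exact one_le_mul_of_one_le_of_one_le (gf_one G θ hG0 j) hx1

end Pool.Agent.Y400.SG
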