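import Pool.Agent.Y400.SG.Main

set_option autoImplicit false

namespace Pool.Agent.Y400.SG

open Pool.Agent.W823.SFP MeasureTheory ProbabilityTheory Filter

variable {d : ℕ} {α lam β κ : ℝ} {g : ℕ → ℝ} {μW μL : Measure ℝ}

theorem three_add_exp_le {s : ℝ} (hs : 0 ≤ s) : 3 + Real.exp s ≤ Real.exp (s + 2) := by
  rw [Real.exp_add]
  have h2 : (4 : ℝ) ≤ Real.exp 2 := by
    have := Real.add_one_le_exp (1 : ℝ)
    have h3 : Real.exp 2 = Real.exp 1 * Real.exp 1 := by rw [← Real.exp_add]; norm_num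
    rw [h3]; nlinarith
  have h4 : 1 ≤ Real.exp s := Real.one_le_exp hs
  nlinarith

theorem Gam_le (h : Hyp d α lam β κ g μW μL) {s : ℝ} (hs : 1 ≤ s) {n : ℕ} (hn : 0 < n) :
    Gam α β (theta0 d α β) (Real.exp s / n) (Jf d α β s) ≤
      Real.exp (theta0 d α β * ((1 + 2 * dm d α β) / β + α * n - (α - d / β) / 2 * s)) := by
  have hα := h.apos
  have hβ := h.hβ
  have hd := h.dpos
  have hdm := h.dm_pos
  have hρ1 := h.rho_lt
  have hdα : (d : ℝ) / α < 1 := (div_lt_one hα).2 h.hα
  have hθ0 : 0 ≤ theta0 d α β := by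
    unfold theta0
    apply le_min
    · have : 0 < 1 - rho d α β := by linarith
      positivity
    · linarith
  have hn' : (0 : ℝ) < n := by exact_mod_cast hn
  unfold Gam
  have hth := th_pos β (Jf d α β s + 1)
  have h1 : th β (Jf d α β s + 1) ≤ Real.exp (1 / β + (s + 2) * (dm d α β / β)) := by
    unfold th
    push_cast
    rw [add_div, Real.rpow_add (by norm_num), Real.exp_add, mul_comm]
    apply mul_le_mul _ _ (by positivity) (Real.exp_pos _).le
    · rw [Real.rpow_def_of_pos (by norm_num)]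
      apply Real.exp_le_exp.2
      have hl2 : Real.log 2 ≤ 1 := by have := Real.log_two_lt_d9; linarith
      have : 0 ≤ 1 / β := by positivity
      nlinarith
    · have hlb : 0 ≤ Real.logb 2 (3 + Real.exp s) :=
        Real.logb_nonneg (by norm_num) (by linarith [Real.exp_pos s])
      have hJ : (Jf d α β s : ℝ) ≤ dm d α β * Real.logb 2 (3 + Real.exp s) :=
        Nat.floor_le (by positivity)
      calc (2 : ℝ) ^ ((Jf d α β s : ℝ) / β) ≤ (2 : ℝ) ^ (Real.logb 2 (3 + Real.exp s) * (dm d α β / β)) := by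
            apply Real.rpow_le_rpow_of_exponent_le (by norm_num)
            rw [mul_div_assoc', mul_comm (Real.logb _ _)]
            gcongr
        _ = (3 + Real.exp s) ^ (dm d α β / β) := by
            rw [Real.rpow_mul (by norm_num), Real.rpow_logb (by norm_num) (by norm_num) (by positivity)]
        _ ≤ (Real.exp (s + 2)) ^ (dm d α β / β) :=
            Real.rpow_le_rpow (by positivity) (three_add_exp_le (by linarith)) (by positivity)
        _ = _ := by rw [← Real.exp_mul]
  have h2 : Real.exp (α * s - α * n) ≤ (Real.exp s / n) ^ α := by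
    rw [Real.div_rpow (Real.exp_pos _).le hn'.le, ← Real.exp_mul, Real.exp_sub, mul_comm s α]
    apply div_le_div_of_nonneg_left (Real.exp_pos _).le (by positivity)
    calc (n : ℝ) ^ α ≤ (Real.exp n) ^ α := by
          apply Real.rpow_le_rpow hn'.le _ hα.le
          linarith [Real.add_one_le_exp (n : ℝ)]
      _ = Real.exp (α * n) := by rw [← Real.exp_mul, mul_comm]
  have h3 : th β (Jf d α β s + 1) / (Real.exp s / n) ^ α ≤
      Real.exp ((1 + 2 * dm d α β) / β + α * n - (α - d / β) / 2 * s) := by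
    have h20 := Real.exp_pos (α * s - α * n)
    calc th β (Jf d α β s + 1) / (Real.exp s / n) ^ α
        ≤ Real.exp (1 / β + (s + 2) * (dm d α β / β)) / Real.exp (α * s - α * n) := by gcongr
      _ = Real.exp ((1 / β + (s + 2) * (dm d α β / β)) - (α * s - α * n)) := by rw [← Real.exp_sub]
      _ = _ := by
          congr 1
          unfold dm
          field_simp
          ring
  calc _ ≤ (Real.exp ((1 + 2 * dm d α β) / β + α * n - (α - d / β) / 2 * s)) ^ theta0 d α β :=
        Real.rpow_le_rpow (by positivity) h3 hθ0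
    _ = _ := by rw [← Real.exp_mul, mul_comm]

/-- The scale belonging to `n` steps. -/
noncomputable def sc (θ A : ℝ) (n : ℕ) : ℝ := A * ((n : ℝ) ^ (1 / (1 - θ)) * Real.log n)

theorem exists_A (cc K1 K2 K3 θ : ℝ) (hcc : 0 < cc) (hK1 : 0 < K1) (hK3 : 0 ≤ K3) (hθ : θ < 1) :
    ∃ A : ℝ, 1 ≤ A ∧ K1 * Real.log A + K2 + K3 * A ^ θ ≤ cc * A := by
  have h1 := (Real.isLittleO_log_id_atTop.def' (show 0 < cc / (3 * K1) by positivity)).bound
  have h0 : ∀ᶠ A : ℝ in atTop, A ^ (-(1 - θ)) ≤ cc / (3 * (K3 + 1)) :=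
    (tendsto_rpow_neg_atTop (show 0 < 1 - θ by linarith)).eventually_le_const (by positivity)
  have h2 := h1.and ((eventually_ge_atTop (1 : ℝ)).and ((eventually_ge_atTop (3 * K2 / cc)).and h0))
  obtain ⟨A, hA1, hA2, hA3, hA4⟩ := h2.exists
  refine ⟨A, hA2, ?_⟩
  have hA0 : 0 < A := by linarith
  simp only [id] at hA1
  rw [Real.norm_of_nonneg (Real.log_nonneg hA2), Real.norm_of_nonneg (by linarith)] at hA1
  have h4 : K1 * Real.log A ≤ cc / 3 * A := by
    calc K1 * Real.log A ≤ K1 * (cc / (3 * K1) * A) := by gcongr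
      _ = cc / 3 * A := by field_simp
  have h5 : K2 ≤ cc / 3 * A := by
    rw [div_le_iff₀ hcc] at hA3
    linarith
  have h6 : K3 * A ^ θ ≤ cc / 3 * A := by
    have e1 : A ^ θ = A * A ^ (-(1 - θ)) := by
      calc A ^ θ = A ^ (1 + -(1 - θ)) := by congr 1; ring
        _ = A ^ (1 : ℝ) * A ^ (-(1 - θ)) := Real.rpow_add hA0 _ _
        _ = _ := by rw [Real.rpow_one]
    rw [e1]
    calc K3 * (A * A ^ (-(1 - θ))) ≤ (K3 + 1) * (A * (cc / (3 * (K3 + 1)))) := by
          gcongr; linarith
      _ = cc / 3 * A := by field_simp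
  linarith

/-- Almost surely, for large `n` no cheap path with at most `n` steps has a long step at scale
`exp (A n log n)`. -/
theorem ae_not_EvU (h : Hyp d α lam β κ g μW μL) {θ G : ℝ} (hθ0' : 0 ≤ θ) (hθ1 : θ < 1) (hG0' : 0 ≤ G)
    (hgG : ∀ j : ℕ, g j ≤ Real.exp (G * ((j : ℝ) + 1) ^ θ)) : ∃ A : ℝ, 1 ≤ A ∧
    ∀ᵐ ω ∂(law d μW μL), ∀ᶠ n : ℕ in atTop,
      ω ∉ EvU d α lam β κ (etaf d α (sc θ A n)) (theta0 d α β) (rho d α β)
        (sc θ A n * g (Jf d α β (sc θ A n))) (Real.exp (sc θ A n) / n) (Jf d α β (sc θ A n)) n := by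
  have hα := h.apos
  have hβ := h.hβ
  have hd := h.dpos
  have hdm := h.dm_pos
  have hρ := h.rho_pos
  have hρ1 := h.rho_lt
  have hdα : (d : ℝ) / α < 1 := (div_lt_one hα).2 h.hα
  have hCL1 : 1 ≤ max 1 lam := le_max_left _ _
  have hθ0 : 0 ≤ theta0 d α β := by
    unfold theta0
    apply le_min
    · have : 0 < 1 - rho d α β := by linarith
      positivity
    · linarith
  have hθpos : 0 < theta0 d α β := by
    unfold theta0
    apply lt_min
    · have : 0 < 1 - rho d α β := by linarith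
      positivity
    · linarith
  set δ : ℝ := (1 - rho d α β) / 4 with hδ
  have hδ0 : 0 < δ := by rw [hδ]; linarith
  set CJ : ℝ := dm d α β * (9 / 2) with hCJ
  have hCJ0 : 0 < CJ := by positivity
  set B : ℝ := 10 ^ d * ((CJ + 1) * (max 1 lam * (2 : ℝ) ^ (4 + 2 * CJ))) with hB
  have hB1 : 1 ≤ B := by
    rw [hB]
    exact one_le_mul_of_one_le_of_one_le (one_le_pow₀ (by norm_num))
      (one_le_mul_of_one_le_of_one_le (by linarith)
        (one_le_mul_of_one_le_of_one_le hCL1
          (Real.one_le_rpow (by norm_num) (by positivity))))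
  have hc1 : 0 < (α - d / β) / 2 := by
    have : d / β < α := by rw [div_lt_iff₀ hβ]; exact h.hγ1
    linarith
  set C3' : ℝ := theta0 d α β * ((1 + 2 * dm d α β) / β) with hC3'
  set cc : ℝ := theta0 d α β * ((α - d / β) / 2) with hcc
  have hcc0 : 0 < cc := by positivity
  have hlB : 0 ≤ Real.log B := Real.log_nonneg hB1
  have h1θ : 0 < 1 - θ := by linarith
  set e : ℝ := 1 / (1 - θ) with he
  have he1 : 1 ≤ e := by rw [he, le_div_iff₀ h1θ]; linarith
  have heθ : 1 + e * θ = e := by rw [he]; field_simp; ring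
  set G' : ℝ := 4 * G * (CJ + 1) with hG'
  have hG'0 : 0 ≤ G' := by positivity
  obtain ⟨A, hA1, hA⟩ := exists_A cc ((d : ℝ) + 3)
    (2 + Real.log B + ((d : ℝ) + 3) * (e + 1) + theta0 d α β * α) G' θ hcc0 (by positivity) hG'0 hθ1
  have hA0 : 0 < A := by linarith
  have hlA : 0 ≤ Real.log A := Real.log_nonneg hA1
  refine ⟨A, hA1, ?_⟩
  obtain ⟨n1, hn1⟩ := exists_nat_gt (2 / δ)
  set n0 : ℕ := max 3 n1 with hn0
  have hbound : ∀ n : ℕ, n0 ≤ n → law d μW μL
      (EvU d α lam β κ (etaf d α (sc θ A n)) (theta0 d α β) (rho d α β)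
        (sc θ A n * g (Jf d α β (sc θ A n))) (Real.exp (sc θ A n) / n) (Jf d α β (sc θ A n)) n) ≤
      ENNReal.ofReal (Real.exp C3' * Real.exp (-(n : ℝ))) * Wc g δ := by
    intro n hn
    have hn3 : 3 ≤ n := (le_max_left _ _).trans hn
    have hnn1 : n1 ≤ n := (le_max_right _ _).trans hn
    have hnpos : 0 < n := by omega
    have hn' : (0 : ℝ) < n := by exact_mod_cast hnpos
    have hn3' : (3 : ℝ) ≤ n := by exact_mod_cast hn3
    have hL1 : 1 ≤ Real.log n := by
      rw [Real.le_log_iff_exp_le hn']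
      have := Real.exp_one_lt_d9
      linarith
    set L : ℝ := Real.log n with hL
    have hL0 : 0 < L := by linarith
    set s : ℝ := sc θ A n with hs
    set P : ℝ := (n : ℝ) ^ e with hP
    have hP0 : 0 < P := by positivity
    have hnP : (n : ℝ) ≤ P := by
      calc (n : ℝ) = (n : ℝ) ^ (1 : ℝ) := (Real.rpow_one _).symm
        _ ≤ _ := Real.rpow_le_rpow_of_exponent_le (by linarith) he1
    have hsdef : s = A * (P * L) := rfl
    have hPL : P ≤ P * L := by nlinarith
    have hPL0 : 0 < P * L := by positivity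
    have hns : (n : ℝ) ≤ s := by
      rw [hsdef]
      nlinarith
    have hs1 : 1 ≤ s := by linarith
    have hs0 : 0 < s := by linarith
    have hlogs : Real.log s ≤ Real.log A + (e + 1) * L := by
      rw [hsdef, Real.log_mul hA0.ne' (by positivity), Real.log_mul hP0.ne' hL0.ne', hP,
        Real.log_rpow hn', ← hL]
      have : Real.log L ≤ L - 1 := Real.log_le_sub_one_of_pos hL0
      linarith
    have hsθ : n * s ^ θ ≤ A ^ θ * (P * L) := by
      have e1 : s ^ θ = A ^ θ * (P ^ θ * L ^ θ) := by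
        rw [hsdef, Real.mul_rpow hA0.le hPL0.le, Real.mul_rpow hP0.le hL0.le]
      have e2 : (n : ℝ) * P ^ θ = P := by
        calc (n : ℝ) * P ^ θ = (n : ℝ) ^ (1 : ℝ) * (n : ℝ) ^ (e * θ) := by
              rw [hP, ← Real.rpow_mul hn'.le, Real.rpow_one]
          _ = (n : ℝ) ^ (1 + e * θ) := (Real.rpow_add hn' _ _).symm
          _ = P := by rw [heθ]
      have e3 : L ^ θ ≤ L := by
        calc L ^ θ ≤ L ^ (1 : ℝ) := Real.rpow_le_rpow_of_exponent_le hL1 hθ1.le
          _ = L := Real.rpow_one L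
      calc n * s ^ θ = A ^ θ * ((n * P ^ θ) * L ^ θ) := by rw [e1]; ring
        _ = A ^ θ * (P * L ^ θ) := by rw [e2]
        _ ≤ _ := by gcongr
    have hS : 0 < Real.exp s / n := by positivity
    have ha0 : 0 < 1 / s := by positivity
    have ha1 : 1 / s ≤ 1 := by rw [div_le_one hs0]; exact hs1
    have hη0 : 0 ≤ etaf d α s := by unfold etaf; positivity
    have hηa : α * etaf d α s = d * (1 + 1 / s) := by unfold etaf; field_simp
    have hq : (etaf d α s + theta0 d α β) / β ≤ 1 - δ := by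
      rw [div_le_iff₀ hβ]
      have h1 : theta0 d α β ≤ β * ((1 - rho d α β) / 2) / 4 := min_le_left _ _
      have h2 : etaf d α s = β * ((1 + rho d α β) / 2) * (1 + 1 / s) := by
        have hab := h.ab_pos
        unfold etaf rho; field_simp; ring
      have h3 : 1 / s ≤ δ / 2 := by
        rw [div_le_iff₀ hs0]
        have h31 : (n1 : ℝ) ≤ n := by exact_mod_cast hnn1
        have h32 : 2 / δ < s := by linarith
        rw [div_lt_iff₀ hδ0] at h32
        linarith
      have h4 : β * ((1 + rho d α β) / 2) * (1 + 1 / s) ≤ β * ((1 + rho d α β) / 2) + β * (δ / 2) := by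
        rw [mul_add, mul_one]
        have : β * ((1 + rho d α β) / 2) * (1 / s) ≤ β * (δ / 2) := by
          rw [mul_assoc]
          apply mul_le_mul_of_nonneg_left _ hβ.le
          calc (1 + rho d α β) / 2 * (1 / s) ≤ 1 * (1 / s) := by
                apply mul_le_mul_of_nonneg_right _ ha0.le; linarith
            _ ≤ δ / 2 := by linarith
        linarith
      rw [h2]
      rw [hδ] at h4 ⊢
      nlinarith
    have hgJ1 := h.g1 (Jf d α β s)
    have hT1 : 1 ≤ s * g (Jf d α β s) := one_le_mul_of_one_le_of_one_le hs1 hgJ1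
    refine (EvU_prob h hη0 hθ0 hS ha0 ha1 hηa hδ0 hq hT1).trans ?_
    rw [← mul_assoc, ← mul_assoc]
    apply mul_le_mul' _ le_rfl
    set J := Jf d α β s with hJ
    have hJs : (J : ℝ) ≤ CJ * s := Jf_le h hs1
    have hgJ0 : 0 < g J := by linarith
    set M : ℝ := (10 / (1 / s)) ^ d * ((J + 1) * (g J ^ 2 * max 1 lam * (s * g J) ^ 2 *
      (2 : ℝ) ^ (4 + 2 * (1 / s) * J))) with hM
    have hM0 : 0 < M := by positivity
    have hgJ4 : g J ^ 4 ≤ Real.exp (G' * s ^ θ) := by
      calc g J ^ 4 ≤ (Real.exp (G * ((J : ℝ) + 1) ^ θ)) ^ 4 := pow_le_pow_left₀ hgJ0.le (hgG J) 4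
        _ = Real.exp (4 * (G * ((J : ℝ) + 1) ^ θ)) := by rw [← Real.exp_nat_mul]; norm_num
        _ ≤ _ := by
            apply Real.exp_le_exp.2
            have e1 : ((J : ℝ) + 1) ^ θ ≤ (CJ + 1) * s ^ θ := by
              calc ((J : ℝ) + 1) ^ θ ≤ ((CJ + 1) * s) ^ θ :=
                    Real.rpow_le_rpow (by positivity) (by linarith) hθ0'
                _ = (CJ + 1) ^ θ * s ^ θ := Real.mul_rpow (by positivity) hs0.le
                _ ≤ (CJ + 1) ^ (1 : ℝ) * s ^ θ := by
                    apply mul_le_mul_of_nonneg_right _ (by positivity)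
                    exact Real.rpow_le_rpow_of_exponent_le (by linarith) hθ1.le
                _ = _ := by rw [Real.rpow_one]
            rw [hG']
            calc 4 * (G * ((J : ℝ) + 1) ^ θ) ≤ 4 * (G * ((CJ + 1) * s ^ θ)) := by gcongr
              _ = _ := by ring
    have hMle : M ≤ B * s ^ (d + 3) * Real.exp (G' * s ^ θ) := by
      have e1 : (10 / (1 / s)) ^ d = 10 ^ d * s ^ d := by rw [← mul_pow]; congr 1; field_simp
      have e2 : (J : ℝ) + 1 ≤ (CJ + 1) * s := by linarith
      have e3 : (2 : ℝ) ^ (4 + 2 * (1 / s) * J) ≤ (2 : ℝ) ^ (4 + 2 * CJ) := by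
        apply Real.rpow_le_rpow_of_exponent_le (by norm_num)
        have : 2 * (1 / s) * J ≤ 2 * CJ := by
          rw [mul_one_div, div_mul_eq_mul_div, div_le_iff₀ hs0]; linarith
        linarith
      calc M = 10 ^ d * s ^ d * (((J : ℝ) + 1) * (max 1 lam * s ^ 2 * (2 : ℝ) ^ (4 + 2 * (1 / s) * J))) *
            g J ^ 4 := by rw [hM, e1]; ring
        _ ≤ 10 ^ d * s ^ d * (((CJ + 1) * s) * (max 1 lam * s ^ 2 * (2 : ℝ) ^ (4 + 2 * CJ))) *
            Real.exp (G' * s ^ θ) := by
            gcongr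
        _ = _ := by rw [hB]; ring
    have hMexp : M ≤ Real.exp (Real.log B + (d + 3) * (Real.log A + (e + 1) * L) + G' * s ^ θ) := by
      refine hMle.trans ?_
      rw [Real.exp_add, Real.exp_add, Real.exp_log (by linarith)]
      apply mul_le_mul_of_nonneg_right _ (Real.exp_pos _).le
      apply mul_le_mul_of_nonneg_left _ (by linarith)
      calc s ^ (d + 3) = Real.exp ((d + 3) * Real.log s) := by
            rw [← Real.exp_log hs0, ← Real.exp_nat_mul, Real.exp_log hs0]; push_cast; ring_nf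
        _ ≤ _ := by
            apply Real.exp_le_exp.2
            gcongr
    have hMn : M ^ n ≤ Real.exp (n * (Real.log B + (d + 3) * (Real.log A + (e + 1) * L) + G' * s ^ θ)) := by
      rw [Real.exp_nat_mul]
      gcongr
    have hG := Gam_le h hs1 hnpos
    have hG0 : 0 ≤ Gam α β (theta0 d α β) (Real.exp s / n) J := by
      unfold Gam
      have := th_pos β (J + 1)
      positivity
    have hnexp : (n : ℝ) ≤ Real.exp n := by linarith [Real.add_one_le_exp (n : ℝ)]
    rw [← ENNReal.ofReal_natCast, ← ENNReal.ofReal_mul (by positivity), ← ENNReal.ofReal_mul (by positivity)]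
    apply ENNReal.ofReal_le_ofReal
    calc (n : ℝ) * M ^ n * Gam α β (theta0 d α β) (Real.exp s / n) J
        ≤ Real.exp n * Real.exp (n * (Real.log B + (d + 3) * (Real.log A + (e + 1) * L) + G' * s ^ θ)) *
          Real.exp (theta0 d α β * ((1 + 2 * dm d α β) / β + α * n - (α - d / β) / 2 * s)) := by
          gcongr
      _ ≤ Real.exp C3' * Real.exp (-(n : ℝ)) := by
          rw [← Real.exp_add, ← Real.exp_add, ← Real.exp_add]
          apply Real.exp_le_exp.2
          have hnL : (n : ℝ) ≤ P * L := hnP.trans hPL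
          have hnL2 : (n : ℝ) * L ≤ P * L := by gcongr
          have e11 : (n : ℝ) * (Real.log B + (d + 3) * Real.log A) ≤
              (P * L) * (Real.log B + (d + 3) * Real.log A) := by
            apply mul_le_mul_of_nonneg_right hnL (by positivity)
          have e14 : (n * L) * (((d : ℝ) + 3) * (e + 1)) ≤ (P * L) * (((d : ℝ) + 3) * (e + 1)) := by
            apply mul_le_mul_of_nonneg_right hnL2 (by positivity)
          have e15 : G' * (n * s ^ θ) ≤ G' * (A ^ θ * (P * L)) := by gcongr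
          have e12 : (n : ℝ) * (Real.log B + (d + 3) * (Real.log A + (e + 1) * L) + G' * s ^ θ) =
              (n : ℝ) * (Real.log B + (d + 3) * Real.log A) + (n * L) * ((d + 3) * (e + 1)) +
                G' * (n * s ^ θ) := by ring
          have e2 : theta0 d α β * α * n ≤ theta0 d α β * α * (P * L) := by gcongr
          have e3 := mul_le_mul_of_nonneg_left hA hPL0.le
          have e4 : theta0 d α β * ((1 + 2 * dm d α β) / β + α * n - (α - d / β) / 2 * s) =
              C3' + theta0 d α β * α * n - (P * L) * (cc * A) := by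
            rw [hC3', hcc, hsdef]; ring
          have e5 : (P * L) * (((d : ℝ) + 3) * Real.log A + (2 + Real.log B + ((d : ℝ) + 3) * (e + 1) +
              theta0 d α β * α) + G' * A ^ θ) =
              (P * L) * (Real.log B + (d + 3) * Real.log A) + (P * L) * ((d + 3) * (e + 1)) +
                G' * (A ^ θ * (P * L)) + 2 * (P * L) + theta0 d α β * α * (P * L) := by ring
          rw [e5] at e3
          rw [e4, e12]
          linarith
  have hsum : ∑' m : ℕ, law d μW μL
      (EvU d α lam β κ (etaf d α (sc θ A (m + n0 : ℕ))) (theta0 d α β) (rho d α β)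
        (sc θ A (m + n0 : ℕ) * g (Jf d α β (sc θ A (m + n0 : ℕ))))
        (Real.exp (sc θ A (m + n0 : ℕ)) / (m + n0 : ℕ)) (Jf d α β (sc θ A (m + n0 : ℕ)))
        (m + n0)) ≠ ⊤ := by
    have hs := Real.summable_exp_neg_nat.mul_left (Real.exp C3')
    have hs' := (summable_nat_add_iff n0).2 hs
    refine ne_top_of_le_ne_top ?_ (ENNReal.tsum_le_tsum fun m => hbound (m + n0) (by omega))
    rw [ENNReal.tsum_mul_right]
    exact ENNReal.mul_ne_top hs'.tsum_ofReal_ne_top (Wc_lt_top h hδ0).ne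
  filter_upwards [ae_eventually_notMem hsum] with ω hω
  rw [eventually_atTop] at hω ⊢
  obtain ⟨N, hN⟩ := hω
  refine ⟨N + n0, fun m hm => ?_⟩
  have := hN (m - n0) (by omega)
  rw [Nat.sub_add_cancel (by omega : n0 ≤ m)] at this
  exact this

/-- The main theorem for general laws. -/
theorem main (h : Hyp d α lam β κ g μW μL) {θ G : ℝ} (hθ0 : 0 ≤ θ) (hθ1 : θ < 1) (hG0 : 0 ≤ G)
    (hgG : ∀ j : ℕ, g j ≤ Real.exp (G * ((j : ℝ) + 1) ^ θ)) : ∃ A : ℝ, 0 < A ∧ ∀ᵐ ω ∂(law d μW μL),
    (∃ v, IsShortest α lam ω 0 v) ∧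
    ∀ v, IsShortest α lam ω 0 v →
      ∀ᶠ n : ℕ in atTop, nrm (v n) ≤ Real.exp (A * ((n : ℝ) ^ (1 / (1 - θ)) * Real.log n)) := by
  obtain ⟨A, hA1, hA⟩ := ae_not_EvU h hθ0 hθ1 hG0 hgG
  refine ⟨A, by linarith, ?_⟩
  filter_upwards [hA, ae_good h, ae_one_le h, ae_mass h, ae_locfin h] with ω h1 h2 h3 h4 h5
  obtain ⟨J0, hJ⟩ := h2
  refine ⟨exists_shortest h5 0 (exists_exploding h hJ 0), fun v hv => ?_⟩
  obtain ⟨s0, hs01, hlink⟩ := link h hJ h3 h4 hv
  have ht : Tendsto (fun n : ℕ => sc θ A n) atTop atTop := by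
    have ht1 : Tendsto (fun n : ℕ => (n : ℝ)) atTop atTop := tendsto_natCast_atTop_atTop
    have ht2 : Tendsto (fun n : ℕ => (n : ℝ) ^ (1 / (1 - θ)) * Real.log n) atTop atTop :=
      ((tendsto_rpow_atTop (by have : 0 < 1 - θ := by linarith
                               positivity)).comp ht1).atTop_mul_atTop₀ (Real.tendsto_log_atTop.comp ht1)
    exact ht2.const_mul_atTop (by linarith)
  filter_upwards [h1, ht.eventually_ge_atTop s0] with n hn1 hn2
  by_contra hcon
  exact hn1 (hlink _ hn2 n ⟨n, le_rfl, not_le.1 hcon⟩)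

/-- The bound is smaller than every double exponential. -/
theorem slow {A e : ℝ} (hA : 0 < A) (he : 0 ≤ e) {b : ℝ} (hb : 1 < b) :
    ∀ᶠ n : ℕ in atTop, Real.exp (A * ((n : ℝ) ^ e * Real.log n)) < Real.exp (b ^ n) := by
  obtain ⟨m, hm⟩ := exists_nat_ge e
  have h1 := (tendsto_pow_const_div_const_pow_of_one_lt (m + 1) hb).const_mul A
  rw [mul_zero] at h1
  filter_upwards [h1.eventually_lt_const (show (0 : ℝ) < 1 by norm_num), eventually_ge_atTop 1]
    with n hn hn1
  apply Real.exp_lt_exp.2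
  have hp : (0 : ℝ) < b ^ n := by positivity
  have hn' : (1 : ℝ) ≤ n := by exact_mod_cast hn1
  rw [mul_div_assoc', div_lt_one hp] at hn
  refine lt_of_le_of_lt ?_ hn
  have h2 : Real.log n ≤ n := (Real.log_le_sub_one_of_pos (by linarith)).trans (by linarith)
  have h3 : (n : ℝ) ^ e ≤ (n : ℝ) ^ m := by
    rw [← Real.rpow_natCast]
    exact Real.rpow_le_rpow_of_exponent_le hn' hm
  have h4 : 0 ≤ Real.log n := Real.log_nonneg hn'
  apply mul_le_mul_of_nonneg_left _ hA.le
  rw [pow_succ]
  gcongr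

end Pool.Agent.Y400.SG
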