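import Pool.Agent.Y400.SG.Total

set_option autoImplicit false

namespace Pool.Agent.Y400.SG

open Pool.Agent.W823.SFP MeasureTheory ProbabilityTheory

variable {d : ℕ} {α lam β κ : ℝ} {g : ℕ → ℝ} {μW μL : Measure ℝ}

/-- The exponent of the mass bound. -/
noncomputable def dm (d : ℕ) (α β : ℝ) : ℝ := (d + α * β) / 2

theorem Hyp.dm_pos (h : Hyp d α lam β κ g μW μL) : 0 < dm d α β := by
  unfold dm; have := h.ab_pos; have := h.dpos; positivity

/-- The maximal class in the box of radius `exp s`. -/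
noncomputable def Jf (d : ℕ) (α β s : ℝ) : ℕ := ⌊dm d α β * Real.logb 2 (3 + Real.exp s)⌋₊

/-- The regular exponent. -/
noncomputable def etaf (d : ℕ) (α s : ℝ) : ℝ := d / α * (1 + 1 / s)

/-- The additional exponent of the long step. -/
noncomputable def theta0 (d : ℕ) (α β : ℝ) : ℝ :=
  min (β * ((1 - rho d α β) / 2) / 4) ((1 - d / α) / 2)

theorem exists_class (hβ : 0 < β) {w : ℝ} (hw : 1 ≤ w) : ∃ j : ℕ, th β j ≤ w ∧ w ≤ th β (j + 1) := by
  classical
  have hex : ∃ j : ℕ, w ≤ th β (j + 1) := by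
    obtain ⟨n, hn⟩ := exists_nat_gt (β * Real.logb 2 w)
    refine ⟨n, ?_⟩
    unfold th
    have h1 : Real.logb 2 w ≤ ((n + 1 : ℕ) : ℝ) / β := by
      rw [le_div_iff₀ hβ]; push_cast; linarith
    calc w = (2 : ℝ) ^ (Real.logb 2 w) := by
          rw [Real.rpow_logb (by norm_num) (by norm_num) (by linarith)]
      _ ≤ _ := Real.rpow_le_rpow_of_exponent_le (by norm_num) h1
  refine ⟨Nat.find hex, ?_, Nat.find_spec hex⟩
  rcases Nat.eq_zero_or_pos (Nat.find hex) with h0 | h0
  · rw [h0]; simp [th, hw]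
  · have := Nat.find_min hex (m := Nat.find hex - 1) (by omega)
    rw [Nat.sub_add_cancel h0] at this
    exact (not_le.1 this).le

theorem logb_le {s : ℝ} (hs : 1 ≤ s) : Real.logb 2 (3 + Real.exp s) ≤ 9 / 2 * s := by
  have h1 : 3 + Real.exp s ≤ Real.exp (s + 2) := by
    rw [Real.exp_add]
    have h2 : (4 : ℝ) ≤ Real.exp 2 := by
      have := Real.add_one_le_exp (1 : ℝ)
      have h3 : Real.exp 2 = Real.exp 1 * Real.exp 1 := by rw [← Real.exp_add]; norm_num
      rw [h3]; nlinarith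
    have h4 : 1 ≤ Real.exp s := Real.one_le_exp (by linarith)
    nlinarith
  have hlog2 := Real.log_two_gt_d9
  unfold Real.logb
  rw [div_le_iff₀ (by linarith)]
  calc Real.log (3 + Real.exp s) ≤ Real.log (Real.exp (s + 2)) :=
        Real.log_le_log (by positivity) h1
    _ = s + 2 := Real.log_exp _
    _ ≤ 9 / 2 * s * Real.log 2 := by nlinarith

theorem Jf_le (h : Hyp d α lam β κ g μW μL) {s : ℝ} (hs : 1 ≤ s) :
    (Jf d α β s : ℝ) ≤ dm d α β * (9 / 2) * s := by
  have hdm := h.dm_pos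
  have h1 : 0 ≤ Real.logb 2 (3 + Real.exp s) :=
    Real.logb_nonneg (by norm_num) (by linarith [Real.exp_pos s])
  calc (Jf d α β s : ℝ) ≤ dm d α β * Real.logb 2 (3 + Real.exp s) := Nat.floor_le (by positivity)
    _ ≤ dm d α β * (9 / 2 * s) := by gcongr; exact logb_le hs
    _ = _ := by ring

theorem sl_le_of_nrm {s : ℝ} (hs : 0 ≤ s) {u : Site d} (hu : nrm u ≤ Real.exp s) : sl u ≤ s + 2 := by
  unfold sl
  have h1 : 3 + Real.exp s ≤ Real.exp (s + 2) := by
    rw [Real.exp_add]
    have h2 : (4 : ℝ) ≤ Real.exp 2 := by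
      have := Real.add_one_le_exp (1 : ℝ)
      have h3 : Real.exp 2 = Real.exp 1 * Real.exp 1 := by rw [← Real.exp_add]; norm_num
      rw [h3]; nlinarith
    have h4 : 1 ≤ Real.exp s := Real.one_le_exp hs
    nlinarith
  calc Real.log (3 + nrm u) ≤ Real.log (Real.exp (s + 2)) :=
        Real.log_le_log (by linarith [nrm_nonneg u]) (by linarith)
    _ = _ := Real.log_exp _

theorem class_le (h : Hyp d α lam β κ g μW μL) {s w : ℝ} {j : ℕ}
    (hw : w ≤ (3 + Real.exp s) ^ (dm d α β / β)) (hj : th β j ≤ w) : j ≤ Jf d α β s := by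
  have hβ := h.hβ
  unfold Jf
  apply Nat.le_floor
  have h3 : (0 : ℝ) < 3 + Real.exp s := by positivity
  have h1 : (2 : ℝ) ^ ((j : ℝ) / β) ≤ (2 : ℝ) ^ (Real.logb 2 (3 + Real.exp s) * (dm d α β / β)) := by
    rw [Real.rpow_mul (by norm_num), Real.rpow_logb (by norm_num) (by norm_num) h3]
    exact hj.trans hw
  have h2 := (Real.rpow_le_rpow_left_iff (by norm_num : (1 : ℝ) < 2)).1 h1
  have h4 : (j : ℝ) / β ≤ (dm d α β * Real.logb 2 (3 + Real.exp s)) / β := by
    refine h2.trans (le_of_eq ?_); ring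
  exact (div_le_div_iff_of_pos_right hβ).1 h4

theorem nrm_le_sum (v : ℕ → Site d) (hv : v 0 = 0) (i : ℕ) :
    nrm (v i) ≤ ∑ l ∈ Finset.range i, nrm (v (l + 1) - v l) := by
  induction i with
  | zero => simp [hv, nrm]
  | succ i ih =>
    rw [Finset.sum_range_succ]
    have := nrm_add_le (v i) (v (i + 1) - v i)
    rw [add_sub_cancel] at this
    linarith

/-- On the good event, a shortest exploding path which leaves the box of radius `exp s` within `n`
steps gives a cheap path with a long step. -/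
theorem link (h : Hyp d α lam β κ g μW μL) {ω : Conf d} {J0 : ℕ}
    (hJ : ∀ (u : Site d) (j : ℕ), J0 ≤ j → KK d α lam g * ((sl u + j) * g j ^ 2) ≤ (2 : ℝ) ^ (rho d α β * j) →
      ω ∉ Bad d α lam β κ g (KK d α lam g) u j)
    (hW : ∀ u, 1 ≤ wt ω u) (hmass : {u : Site d | (3 + nrm u) ^ (dm d α β / β) ≤ wt ω u}.Finite)
    {v : ℕ → Site d} (hv : IsShortest α lam ω 0 v) :
    ∃ s0 : ℝ, 1 ≤ s0 ∧ ∀ s : ℝ, s0 ≤ s → ∀ n : ℕ, (∃ l ≤ n, Real.exp s < nrm (v l)) →
      ω ∈ EvU d α lam β κ (etaf d α s) (theta0 d α β) (rho d α β) (s * g (Jf d α β s))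
        (Real.exp s / n) (Jf d α β s) n := by
  classical
  have hα := h.apos
  have hβ := h.hβ
  have hd := h.dpos
  have hdm := h.dm_pos
  have hC4 := h.C4_pos
  have hρ := h.rho_pos
  have hρ1 := h.rho_lt
  have hdα : (d : ℝ) / α < 1 := (div_lt_one hα).2 h.hα
  have hκ := h.hκ
  have hDk := h.Dk_nonneg
  have hlen : len ω v ≠ ⊤ := hv.1.2.ne
  have hV1n : 0 ≤ (len ω v).toReal := ENNReal.toReal_nonneg
  set V0 : ℝ := (len ω v).toReal ^ κ with hV0
  have hV0n : 0 ≤ V0 := by positivity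
  set Dd : ℝ := max 1 (Dk d α β κ g ^ κ) with hDd
  have hDd1 : 1 ≤ Dd := le_max_left _ _
  set CJ : ℝ := dm d α β * (9 / 2) with hCJ
  have hCJ0 : 0 < CJ := by positivity
  set D : ℝ := C4 d α lam β g * (CJ + 4) * Dd with hD
  have hD0 : 0 < D := by positivity
  -- the largest exceptional weight
  obtain ⟨Wm, hWm⟩ := (hmass.image (wt ω)).bddAbove
  obtain ⟨s1, hs1⟩ : ∃ s1 : ℝ, ∀ s, s1 ≤ s → Wm ≤ (3 + Real.exp s) ^ (dm d α β / β) := by
    have ht : Filter.Tendsto (fun s : ℝ => (3 + Real.exp s) ^ (dm d α β / β)) Filter.atTop Filter.atTop :=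
      (tendsto_rpow_atTop (by positivity)).comp
        (Filter.tendsto_atTop_add_const_left _ _ Real.tendsto_exp_atTop)
    obtain ⟨s1, hs1⟩ := Filter.eventually_atTop.1 (ht.eventually_ge_atTop Wm)
    exact ⟨s1, hs1⟩
  set E : ℝ := 2 * (d / α) / (1 - d / α) with hE
  refine ⟨max 1 (max s1 (max D (max (V0 * D) (max (V0 * (2 : ℝ) ^ (rho d α β * J0)) E)))),
    le_max_left _ _, fun s hs n hn => ?_⟩
  simp only [max_le_iff] at hs
  obtain ⟨hs1', hss1, hsD, hsV, hsJ, hsE⟩ := hs
  have hs0 : 0 < s := by linarith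
  -- exponents
  have hη0 : 0 ≤ etaf d α s := by unfold etaf; positivity
  have hθ0 : 0 ≤ theta0 d α β := by
    unfold theta0
    apply le_min
    · have : 0 < 1 - rho d α β := by linarith
      positivity
    · linarith
  have hηθ : etaf d α s + theta0 d α β ≤ 1 := by
    have h1 : theta0 d α β ≤ (1 - d / α) / 2 := min_le_right _ _
    have h2 : etaf d α s ≤ d / α + (1 - d / α) / 2 := by
      unfold etaf
      rw [mul_add, mul_one, mul_one_div]
      have h3 : (d : ℝ) / α / s ≤ (1 - d / α) / 2 := by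
        rw [div_le_iff₀ hs0]
        have h4 : 2 * (d / α) ≤ s * (1 - d / α) := by
          rw [hE, div_le_iff₀ (by linarith)] at hsE
          exact hsE
        linarith
      linarith
    linarith
  -- weights in the box
  have hwbox : ∀ u : Site d, nrm u ≤ Real.exp s → wt ω u ≤ (3 + Real.exp s) ^ (dm d α β / β) := by
    intro u hu
    by_cases hF : (3 + nrm u) ^ (dm d α β / β) ≤ wt ω u
    · exact (hWm ⟨u, hF, rfl⟩).trans (hs1 s hss1)
    · refine (not_le.1 hF).le.trans ?_
      exact Real.rpow_le_rpow (by linarith [nrm_nonneg u]) (by linarith) (by positivity)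
  -- classes
  choose cl hcl1 hcl2 using fun u : Site d => exists_class hβ (hW u)
  have hclJ : ∀ u : Site d, nrm u ≤ Real.exp s → cl u ≤ Jf d α β s :=
    fun u hu => class_le h (hwbox u hu) (hcl1 u)
  -- the costs
  have hcost : ∀ l : ℕ, nrm (v l) ≤ Real.exp s →
      cost ω (v l) (v (l + 1)) ≤ cst κ (rho d α β) (s * g (Jf d α β s)) (cl (v l)) := by
    intro l hl
    set x := v l with hx
    set j := cl x with hj
    have hjJ : (j : ℝ) ≤ CJ * s := by
      have : (j : ℝ) ≤ Jf d α β s := by exact_mod_cast hclJ x hl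
      exact this.trans (Jf_le h hs1')
    have hsl : sl x ≤ s + 2 := sl_le_of_nrm hs0.le hl
    have hsx := sl_pos x
    have hgj := h.gpos j
    have hgj1 := h.g1 j
    have hgJ1 := h.g1 (Jf d α β s)
    have hgjJ : g j ≤ g (Jf d α β s) := h.gm (hclJ x hl)
    set GJ : ℝ := g (Jf d α β s) with hGJ
    have hGJ0 : 0 < GJ := by linarith
    have hgg : g j ^ 2 ≤ GJ ^ 2 := pow_le_pow_left₀ hgj.le hgjJ 2
    have hX0 : 0 ≤ C4 d α lam β g * ((sl x + j + 1) * g j ^ 2) := by positivity
    have hDs' : C4 d α lam β g * ((sl x + j + 1) * g j ^ 2) * Dd ≤ (D * s) * GJ ^ 2 := by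
      rw [hD]
      calc C4 d α lam β g * ((sl x + j + 1) * g j ^ 2) * Dd
          ≤ C4 d α lam β g * (((CJ + 4) * s) * GJ ^ 2) * Dd := by
            apply mul_le_mul_of_nonneg_right _ (by linarith)
            apply mul_le_mul_of_nonneg_left _ hC4.le
            apply mul_le_mul _ hgg (by positivity) (by positivity)
            nlinarith
        _ = _ := by ring
    have hDs : C4 d α lam β g * ((sl x + j + 1) * g j ^ 2) ≤ (D * s) * GJ ^ 2 := by
      refine le_trans ?_ hDs'
      nlinarith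
    have hDsT : (D * s) * GJ ^ 2 ≤ (s * GJ) ^ 2 := by
      have : D * s ≤ s ^ 2 := by nlinarith
      calc (D * s) * GJ ^ 2 ≤ s ^ 2 * GJ ^ 2 := by gcongr
        _ = _ := by ring
    have h2j : (0 : ℝ) < (2 : ℝ) ^ (rho d α β * j) := by positivity
    have hps0 : 0 ≤ psi (rho d α β) (s * GJ) j := by unfold psi; positivity
    unfold cst
    by_cases hc : J0 ≤ j ∧ C4 d α lam β g * ((sl x + j + 1) * g j ^ 2) ≤ (2 : ℝ) ^ (rho d α β * j)
    · obtain ⟨a, ha, hal⟩ := chain h hJ x j hc.1 (hcl1 x) hc.2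
      have h1 := (cost_le hv l (a := a) ha).trans hal
      have h0 : 0 ≤ (C4 d α lam β g * ((sl x + j + 1) * g j ^ 2) * (2 : ℝ) ^ (-(rho d α β * j))) ^ (1 / κ) * Dk d α β κ g := by
        positivity
      have h2 := (ENNReal.ofReal_le_ofReal_iff h0).1 h1
      refine h2.trans ?_
      have h3 : Dk d α β κ g = (Dk d α β κ g ^ κ) ^ (1 / κ) := by
        rw [← Real.rpow_mul hDk, mul_one_div_cancel hκ.ne', Real.rpow_one]
      rw [h3, ← Real.mul_rpow (by positivity) (by positivity)]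
      apply Real.rpow_le_rpow (by positivity) _ (by positivity)
      unfold psi
      calc C4 d α lam β g * ((sl x + j + 1) * g j ^ 2) * (2 : ℝ) ^ (-(rho d α β * j)) * Dk d α β κ g ^ κ
          ≤ C4 d α lam β g * ((sl x + j + 1) * g j ^ 2) * (2 : ℝ) ^ (-(rho d α β * j)) * Dd := by
            apply mul_le_mul_of_nonneg_left (le_max_right _ _) (by positivity)
        _ = (C4 d α lam β g * ((sl x + j + 1) * g j ^ 2) * Dd) * (2 : ℝ) ^ (-(rho d α β * j)) := by ring
        _ ≤ (s * GJ) ^ 2 * (2 : ℝ) ^ (-(rho d α β * j)) := by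
            apply mul_le_mul_of_nonneg_right (hDs'.trans hDsT) (by positivity)
    · have hcV : cost ω x (v (l + 1)) ≤ V0 ^ (1 / κ) := by
        have h1 := cost_le_len (ω := ω) (v := v) l
        rw [hV0, ← Real.rpow_mul hV1n, mul_one_div_cancel hκ.ne', Real.rpow_one]
        exact (ENNReal.ofReal_le_iff_le_toReal hlen).1 h1
      refine hcV.trans ?_
      apply Real.rpow_le_rpow hV0n _ (by positivity)
      unfold psi
      rw [Real.rpow_neg (by norm_num), ← div_eq_mul_inv, le_div_iff₀ h2j]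
      have hGJ2 : 1 ≤ GJ ^ 2 := one_le_pow₀ hgJ1
      by_cases hjJ0 : J0 ≤ j
      · have h3 : (2 : ℝ) ^ (rho d α β * j) ≤ (D * s) * GJ ^ 2 := by
          have : ¬ (C4 d α lam β g * ((sl x + j + 1) * g j ^ 2) ≤ (2 : ℝ) ^ (rho d α β * j)) := fun hh => hc ⟨hjJ0, hh⟩
          exact (not_le.1 this).le.trans hDs
        calc V0 * (2 : ℝ) ^ (rho d α β * j) ≤ V0 * ((D * s) * GJ ^ 2) := by gcongr
          _ = (V0 * D) * (s * GJ ^ 2) := by ring
          _ ≤ s * (s * GJ ^ 2) := by gcongr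
          _ = (s * GJ) ^ 2 := by ring
      · have h3 : (2 : ℝ) ^ (rho d α β * j) ≤ (2 : ℝ) ^ (rho d α β * J0) := by
          apply Real.rpow_le_rpow_of_exponent_le (by norm_num)
          have : (j : ℝ) ≤ J0 := by exact_mod_cast (not_le.1 hjJ0).le
          gcongr
        calc V0 * (2 : ℝ) ^ (rho d α β * j) ≤ V0 * (2 : ℝ) ^ (rho d α β * J0) := by gcongr
          _ ≤ s := hsJ
          _ ≤ s ^ 2 * 1 := by nlinarith
          _ ≤ s ^ 2 * GJ ^ 2 := by gcongr
          _ = (s * GJ) ^ 2 := by ring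
  -- the first exit
  obtain ⟨⟨⟨hv0, hvi, hvj⟩, -⟩, -⟩ := hv
  have hexit : ∃ l, Real.exp s < nrm (v l) := ⟨_, hn.choose_spec.2⟩
  set i0 := Nat.find hexit with hi0
  have hi0s : Real.exp s < nrm (v i0) := Nat.find_spec hexit
  have hi0n : i0 ≤ n := (Nat.find_min' hexit hn.choose_spec.2).trans hn.choose_spec.1
  have hbefore : ∀ l < i0, nrm (v l) ≤ Real.exp s := fun l hl => not_lt.1 (Nat.find_min hexit hl)
  have hi0pos : 0 < i0 := by
    rcases Nat.eq_zero_or_pos i0 with h0 | h0
    · rw [h0, hv0] at hi0s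
      simp [nrm] at hi0s
      linarith [Real.exp_pos s]
    · exact h0
  have hnpos : (0 : ℝ) < n := by
    have : 0 < n := lt_of_lt_of_le hi0pos hi0n
    exact_mod_cast this
  obtain ⟨k, hk, hkS⟩ : ∃ k < i0, Real.exp s / n ≤ nrm (v (k + 1) - v k) := by
    by_contra hcon
    push Not at hcon
    have h1 := nrm_le_sum v hv0 i0
    have h2 : ∑ l ∈ Finset.range i0, nrm (v (l + 1) - v l) ≤ ∑ _l ∈ Finset.range i0, Real.exp s / n :=
      Finset.sum_le_sum fun l hl => (hcon l (Finset.mem_range.1 hl)).le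
    rw [Finset.sum_const, Finset.card_range, nsmul_eq_mul] at h2
    have h3 : (i0 : ℝ) * (Real.exp s / n) ≤ Real.exp s := by
      rw [mul_div_assoc', div_le_iff₀ hnpos, mul_comm]
      have : (i0 : ℝ) ≤ n := by exact_mod_cast hi0n
      have := Real.exp_pos s
      gcongr
    linarith
  -- assemble
  let p : Fin (k + 1) → Site d × ℕ := fun l => (v (l + 1) - v l, cl (v l))
  have hpos : ∀ l : Fin (k + 2), pos p l = v l := by
    intro l
    induction l using Fin.induction with
    | zero => simp [pos, hv0]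
    | succ l ih =>
      rw [pos_succ, ih]
      simp [p]
  have hcls : ∀ l : Fin (k + 2), cls p (cl (v (k + 1))) l = cl (v l) := by
    intro l
    induction l using Fin.lastCases with
    | last => rw [cls_last]; simp
    | cast l => rw [cls_castSucc]; simp [p]
  unfold EvU
  simp only [Set.mem_iUnion, Finset.mem_range]
  refine ⟨k, by omega, p, cl (v (k + 1)), ?_, ?_, ?_, ?_, ?_, ?_⟩
  · intro l l' hll
    rw [hpos, hpos] at hll
    exact Fin.ext (hvi hll)
  · intro l
    exact hclJ _ (hbefore _ (by have := l.2; omega))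
  · simpa [p] using hkS
  · intro l
    rw [hpos, hcls]
    exact hcl1 _
  · intro l
    rw [hpos, hpos, hcls, hcls]
    have h1 : (0 : ℝ) ≤ wt ω (v l.castSucc) := by linarith [hW (v l.castSucc)]
    have h2 : (0 : ℝ) ≤ wt ω (v l.succ) := by linarith [hW (v l.succ)]
    have hjn : Joined α lam ω (v l.castSucc) (v l.succ) := by simpa using hvj l
    have := joined_mark h hjn (i := cl (v l.castSucc)) (j := cl (v l.succ)) h1 h2 (hcl2 _) (hcl2 _)
      (e := expo k (etaf d α s) (theta0 d α β) l)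
      (by unfold expo; split_ifs <;> linarith) (by unfold expo; split_ifs <;> linarith)
    simpa [p] using this
  · intro l
    rw [hpos, hpos]
    have := hcost l (hbefore _ (by have := l.2; omega))
    simpa [p] using this

end Pool.Agent.Y400.SG
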