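import Pool.Agent.Y400.SG.Count

set_option autoImplicit false

namespace Pool.Agent.Y400.SG

open Pool.Agent.W823.SFP MeasureTheory ProbabilityTheory

variable {d : ℕ} {α lam β κ : ℝ} {g : ℕ → ℝ} {μW μL : Measure ℝ}

/-- The class factor of a step. -/
noncomputable def gj (lam β : ℝ) (g : ℕ → ℝ) (η ρ s : ℝ) (j : ℕ) : ℝ :=
  g j ^ 2 * max 1 lam * s ^ 2 * th β (j + 1) ^ (2 * η) * (2 : ℝ) ^ (-(j : ℝ)) * (2 : ℝ) ^ (-(ρ * j))

noncomputable def GE (lam β : ℝ) (g : ℕ → ℝ) (η ρ s a : ℝ) (J : ℕ) {d : ℕ} (q : Site d × ℕ) : ENNReal :=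
  (∏ i, gd a (q.1 i)) * (if q.2 ≤ J then ENNReal.ofReal (gj lam β g η ρ s q.2) else 0)

theorem Ev_le (h : Hyp d α lam β κ g μW μL) {η θ0 ρ s S a : ℝ} {J : ℕ} {k : ℕ}
    (hη : 0 ≤ η) (hθ : 0 ≤ θ0) (hS : 0 < S) (ha : 0 < a) (hηa : α * η = d * (1 + a))
    (hs : 1 ≤ s) (hρ1 : ρ ≤ 1) (p : Fin (k + 1) → Site d × ℕ) (jl : ℕ) :
    law d μW μL (Ev d α lam β κ η θ0 ρ s S J k p jl) ≤
      (∏ l, GE lam β g η ρ s a J (p l)) *
        (ENNReal.ofReal (Gam α β θ0 S J) * ENNReal.ofReal (g jl * wr β η θ0 jl)) := by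
  classical
  have hg := h.gpos
  by_cases hc : Function.Injective (pos p) ∧ (∀ l, (p l).2 ≤ J) ∧ S ≤ nrm (p (Fin.last k)).1
  · obtain ⟨hinj, hJ, hSx⟩ := hc
    have hx : ∀ l, (p l).1 ≠ 0 := by
      intro l h0
      have := pos_succ p l
      rw [h0, add_zero] at this
      have h1 := congrArg Fin.val (hinj this)
      simp at h1
    have hth : ∀ j, 0 < th β j := fun j => th_pos β j
    have hn0 : ∀ l, 0 < nrm (p l).1 := fun l => by linarith [one_le_nrm (hx l)]
    have hCL : 0 < max 1 lam := lt_of_lt_of_le one_pos (le_max_left _ _)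
    refine (Ev_prob_le h η θ0 ρ s S hs hρ1 J k p jl hinj).trans ?_
    have hb := prod_boundC h (ρ := ρ) (s := s) hη hθ hS p jl hx hJ hSx
    rw [← ENNReal.ofReal_prod_of_nonneg (fun l _ => by have := hg (cls p jl l); positivity),
      ← ENNReal.ofReal_prod_of_nonneg (fun l _ => by
        have h1 := hth (cls p jl l.castSucc + 1)
        have h2 := hth (cls p jl l.succ + 1)
        have h3 := hn0 l
        unfold QQ; positivity),
      ← ENNReal.ofReal_prod_of_nonneg (fun l _ => by have := hg (p l).2; unfold psi; positivity),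
      ← ENNReal.ofReal_mul (Finset.prod_nonneg fun l _ => by
        have h1 := hth (cls p jl l.castSucc + 1)
        have h2 := hth (cls p jl l.succ + 1)
        have h3 := hn0 l
        unfold QQ; positivity),
      ← ENNReal.ofReal_mul (Finset.prod_nonneg fun l _ => by have := hg (cls p jl l); positivity)]
    refine (ENNReal.ofReal_le_ofReal hb).trans ?_
    have hG0 : 0 ≤ Gam α β θ0 S J := by unfold Gam; have := hth (J + 1); positivity
    rw [ENNReal.ofReal_mul (Finset.prod_nonneg fun l _ => by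
        have := hth ((p l).2 + 1); have := hn0 l; have := hg (p l).2; unfold GrC; positivity),
      ENNReal.ofReal_mul hG0]
    gcongr
    rw [ENNReal.ofReal_prod_of_nonneg (fun l _ => by
        have := hth ((p l).2 + 1); have := hn0 l; have := hg (p l).2; unfold GrC; positivity)]
    apply Finset.prod_le_prod' 
    intro l _
    unfold GE GrC
    rw [if_pos (hJ l), ENNReal.ofReal_mul (by have := hn0 l; positivity)]
    apply mul_le_mul' _ le_rfl
    rw [hηa]
    exact nrm_rpow_le (hx l) a ha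
  · have : Ev d α lam β κ η θ0 ρ s S J k p jl = ∅ := by
      ext ω
      simp only [Ev, Set.mem_ofPred_eq, Set.mem_empty_iff_false, iff_false]
      rintro ⟨h1, h2, h3, -⟩
      exact hc ⟨h1, h2, h3⟩
    rw [this, measure_empty]
    exact zero_le

theorem gj_le (h : Hyp d α lam β κ g μW μL) {η s a : ℝ} {J : ℕ} (ha : 0 < a) (ha1 : a ≤ 1)
    (hηa : α * η = d * (1 + a)) {j : ℕ} (hj : j ≤ J) :
    gj lam β g η (rho d α β) s j ≤ g J ^ 2 * max 1 lam * s ^ 2 * (2 : ℝ) ^ (4 + 2 * a * J) := by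
  have hgj := h.gpos j
  have hgJ : g j ≤ g J := h.gm hj
  have hcoef : g j ^ 2 * max 1 lam * s ^ 2 ≤ g J ^ 2 * max 1 lam * s ^ 2 := by gcongr
  have hβ := h.hβ
  have hα := h.apos
  have hρ := h.rho_pos
  have hρ1 := h.rho_lt
  have hCL : 0 < max 1 lam := lt_of_lt_of_le one_pos (le_max_left _ _)
  unfold gj th
  rw [← Real.rpow_mul (by norm_num), mul_assoc, mul_assoc, ← Real.rpow_add (by norm_num),
    ← Real.rpow_add (by norm_num)]
  refine le_trans (mul_le_mul_of_nonneg_right hcoef (by positivity)) ?_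
  apply mul_le_mul_of_nonneg_left _ (by positivity)
  apply Real.rpow_le_rpow_of_exponent_le (by norm_num)
  have hη : η = d * (1 + a) / α := by field_simp; linarith
  have h1 : ((j + 1 : ℕ) : ℝ) / β * (2 * η) = (1 + rho d α β) * (1 + a) * (j + 1) := by
    rw [hη]; unfold rho; push_cast; field_simp; ring
  rw [h1]
  have hj' : (j : ℝ) ≤ J := by exact_mod_cast hj
  have hj0 : (0 : ℝ) ≤ j := Nat.cast_nonneg j
  set ρ := rho d α β
  have e1 : (1 + ρ) * (1 + a) * (j + 1) + (-(j : ℝ) + -(ρ * j)) = (1 + ρ) * (1 + a) + (1 + ρ) * a * j := by ring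
  rw [e1]
  have e2 : (1 + ρ) * (1 + a) ≤ 4 := by nlinarith
  have e3 : (1 + ρ) * a * j ≤ 2 * a * J := by
    apply mul_le_mul _ hj' hj0 (by positivity)
    nlinarith
  linarith

theorem sum_GE (h : Hyp d α lam β κ g μW μL) {η s a : ℝ} {J : ℕ} (ha : 0 < a) (ha1 : a ≤ 1)
    (hηa : α * η = d * (1 + a)) :
    ∑' q : Site d × ℕ, GE lam β g η (rho d α β) s a J q ≤
      ENNReal.ofReal ((10 / a) ^ d * ((J + 1) * (g J ^ 2 * max 1 lam * s ^ 2 * (2 : ℝ) ^ (4 + 2 * a * J)))) := by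
  have hgJ := h.gpos J
  have hCL : 0 < max 1 lam := lt_of_lt_of_le one_pos (le_max_left _ _)
  unfold GE
  rw [ENNReal.tsum_prod']
  simp_rw [ENNReal.tsum_mul_left]
  rw [ENNReal.tsum_mul_right, ENNReal.ofReal_mul (by positivity)]
  apply mul_le_mul' (lattice_sum_bound d a ha ha1)
  rw [tsum_eq_sum (s := Finset.range (J + 1)) (by
    intro j hj
    rw [Finset.mem_range] at hj
    rw [if_neg (by omega)])]
  calc ∑ j ∈ Finset.range (J + 1), (if j ≤ J then ENNReal.ofReal (gj lam β g η (rho d α β) s j) else 0)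
      ≤ ∑ _j ∈ Finset.range (J + 1), ENNReal.ofReal (g J ^ 2 * max 1 lam * s ^ 2 * (2 : ℝ) ^ (4 + 2 * a * J)) := by
        apply Finset.sum_le_sum
        intro j hj
        rw [Finset.mem_range] at hj
        rw [if_pos (by omega)]
        exact ENNReal.ofReal_le_ofReal (gj_le h ha ha1 hηa (by omega))
    _ = _ := by
        rw [Finset.sum_const, Finset.card_range, nsmul_eq_mul, ← ENNReal.ofReal_natCast,
          ← ENNReal.ofReal_mul (by positivity)]
        push_cast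
        rfl

/-- The sum of the weights of the last class. -/
noncomputable def Wc (g : ℕ → ℝ) (δ : ℝ) : ENNReal :=
  2 * ∑' j : ℕ, ENNReal.ofReal (g j * (2 : ℝ) ^ (-(δ * j)))

theorem Wc_lt_top (h : Hyp d α lam β κ g μW μL) {δ : ℝ} (hδ : 0 < δ) : Wc g δ < ⊤ := by
  unfold Wc
  apply ENNReal.mul_lt_top (by simp)
  have hs := h.summable_g hδ
  have hs2 : Summable fun j : ℕ => g j * (2 : ℝ) ^ (-(δ * j)) := by
    refine Summable.of_nonneg_of_le (fun i => by have := h.gpos i; positivity) (fun i => ?_) hs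
    have h1 := h.g1 i
    have h2 : (0 : ℝ) ≤ i := Nat.cast_nonneg i
    apply mul_le_mul_of_nonneg_right _ (by positivity)
    have h3 : g i ≤ g i ^ 2 := by nlinarith
    have h4 : (1 : ℝ) ≤ ((i : ℝ) + 1) ^ 2 := one_le_pow₀ (by linarith)
    nlinarith
  exact lt_top_iff_ne_top.2 hs2.tsum_ofReal_ne_top

theorem sum_wr (h : Hyp d α lam β κ g μW μL) {η θ0 δ : ℝ} (hδ0 : 0 ≤ δ) (hq : (η + θ0) / β ≤ 1 - δ) :
    ∑' j : ℕ, ENNReal.ofReal (g j * wr β η θ0 j) ≤ Wc g δ := by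
  unfold Wc
  rw [← ENNReal.tsum_mul_left]
  apply ENNReal.tsum_le_tsum
  intro j
  rw [show (2 : ENNReal) = ENNReal.ofReal 2 by simp, ← ENNReal.ofReal_mul (by norm_num)]
  apply ENNReal.ofReal_le_ofReal
  have hβ := h.hβ
  have hgj := h.gpos j
  rw [show 2 * (g j * (2 : ℝ) ^ (-(δ * j))) = g j * (2 * (2 : ℝ) ^ (-(δ * j))) by ring]
  apply mul_le_mul_of_nonneg_left _ hgj.le
  unfold wr th
  rw [← Real.rpow_mul (by norm_num), ← Real.rpow_add (by norm_num)]
  calc (2 : ℝ) ^ (-(j : ℝ) + ((j + 1 : ℕ) : ℝ) / β * (η + θ0)) ≤ (2 : ℝ) ^ (1 + -(δ * j)) := by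
        apply Real.rpow_le_rpow_of_exponent_le (by norm_num)
        have hj0 : (0 : ℝ) ≤ j := Nat.cast_nonneg j
        have e1 : ((j + 1 : ℕ) : ℝ) / β * (η + θ0) = ((j : ℝ) + 1) * ((η + θ0) / β) := by
          push_cast; ring
        rw [e1]
        have e2 : ((j : ℝ) + 1) * ((η + θ0) / β) ≤ ((j : ℝ) + 1) * (1 - δ) := by gcongr
        have e3 : δ = 1 - (1 - δ) := by ring
        have e4 : δ ≤ 1 + δ := by linarith
        have e5 : 0 ≤ δ ∨ δ < 0 := le_or_gt 0 δ
        have : ((j : ℝ) + 1) * (1 - δ) = j + 1 - δ * j - δ := by ring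
        rcases e5 with e5 | e5
        · linarith
        · exfalso
          exact absurd e5 (not_lt.2 hδ0)
    _ = _ := by rw [Real.rpow_add (by norm_num), Real.rpow_one]

/-- The event that some cheap path with at most `n` steps ends with a long step. -/
def EvU (d : ℕ) (α lam β κ η θ0 ρ s S : ℝ) (J n : ℕ) : Set (Conf d) :=
  ⋃ k ∈ Finset.range n, ⋃ p : Fin (k + 1) → Site d × ℕ, ⋃ jl : ℕ,
    Ev d α lam β κ η θ0 ρ s S J k p jl

theorem EvU_prob (h : Hyp d α lam β κ g μW μL) {η θ0 s S a δ : ℝ} {J n : ℕ}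
    (hη : 0 ≤ η) (hθ : 0 ≤ θ0) (hS : 0 < S) (ha : 0 < a) (ha1 : a ≤ 1)
    (hηa : α * η = d * (1 + a)) (hδ : 0 < δ) (hq : (η + θ0) / β ≤ 1 - δ) (hs : 1 ≤ s) :
    law d μW μL (EvU d α lam β κ η θ0 (rho d α β) s S J n) ≤
      n * (ENNReal.ofReal (((10 / a) ^ d *
        ((J + 1) * (g J ^ 2 * max 1 lam * s ^ 2 * (2 : ℝ) ^ (4 + 2 * a * J)))) ^ n) *
        (ENNReal.ofReal (Gam α β θ0 S J) * Wc g δ)) := by
  have hgJ := h.g1 J
  have hρ1 := h.rho_lt.le
  set M : ℝ := (10 / a) ^ d * ((J + 1) * (g J ^ 2 * max 1 lam * s ^ 2 * (2 : ℝ) ^ (4 + 2 * a * J))) with hM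
  have hM1 : 1 ≤ M := by
    rw [hM]
    have e1 : 1 ≤ (10 / a) ^ d := one_le_pow₀ (by rw [le_div_iff₀ ha]; linarith)
    have e2 : (1 : ℝ) ≤ (J : ℝ) + 1 := by have : (0:ℝ) ≤ J := Nat.cast_nonneg J; linarith
    have e3 : 1 ≤ max 1 lam := le_max_left _ _
    have e4 : (1 : ℝ) ≤ s ^ 2 := one_le_pow₀ hs
    have e5 : (1 : ℝ) ≤ (2 : ℝ) ^ (4 + 2 * a * J) := Real.one_le_rpow (by norm_num) (by positivity)
    exact one_le_mul_of_one_le_of_one_le e1 (one_le_mul_of_one_le_of_one_le e2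
      (one_le_mul_of_one_le_of_one_le (one_le_mul_of_one_le_of_one_le
        (one_le_mul_of_one_le_of_one_le (one_le_pow₀ hgJ) e3) e4) e5))
  have hk : ∀ k, law d μW μL (⋃ p : Fin (k + 1) → Site d × ℕ, ⋃ jl : ℕ,
      Ev d α lam β κ η θ0 (rho d α β) s S J k p jl) ≤
      ENNReal.ofReal (M ^ (k + 1)) * (ENNReal.ofReal (Gam α β θ0 S J) * Wc g δ) := by
    intro k
    calc law d μW μL (⋃ p : Fin (k + 1) → Site d × ℕ, ⋃ jl : ℕ,
        Ev d α lam β κ η θ0 (rho d α β) s S J k p jl)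
        ≤ ∑' p : Fin (k + 1) → Site d × ℕ, ∑' jl : ℕ,
          law d μW μL (Ev d α lam β κ η θ0 (rho d α β) s S J k p jl) :=
          (measure_iUnion_le _).trans (ENNReal.tsum_le_tsum fun p => measure_iUnion_le _)
      _ ≤ ∑' p : Fin (k + 1) → Site d × ℕ, ∑' jl : ℕ, (∏ l, GE lam β g η (rho d α β) s a J (p l)) *
          (ENNReal.ofReal (Gam α β θ0 S J) * ENNReal.ofReal (g jl * wr β η θ0 jl)) :=
          ENNReal.tsum_le_tsum fun p => ENNReal.tsum_le_tsum fun jl => Ev_le h hη hθ hS ha hηa hs hρ1 p jl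
      _ = (∑' q : Site d × ℕ, GE lam β g η (rho d α β) s a J q) ^ (k + 1) *
          (ENNReal.ofReal (Gam α β θ0 S J) * ∑' jl : ℕ, ENNReal.ofReal (g jl * wr β η θ0 jl)) := by
          simp_rw [ENNReal.tsum_mul_left]
          rw [ENNReal.tsum_mul_right, tsum_fin_prod (k + 1) (fun _ => GE lam β g η (rho d α β) s a J),
            Finset.prod_const, Finset.card_univ, Fintype.card_fin]
      _ ≤ _ := by
          rw [ENNReal.ofReal_pow (by linarith)]
          gcongr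
          · exact sum_GE h ha ha1 hηa
          · exact sum_wr h hδ.le hq
  unfold EvU
  refine (measure_biUnion_finset_le _ _).trans ?_
  calc ∑ k ∈ Finset.range n, law d μW μL (⋃ p : Fin (k + 1) → Site d × ℕ, ⋃ jl : ℕ,
      Ev d α lam β κ η θ0 (rho d α β) s S J k p jl)
      ≤ ∑ _k ∈ Finset.range n, ENNReal.ofReal (M ^ n) * (ENNReal.ofReal (Gam α β θ0 S J) * Wc g δ) := by
        apply Finset.sum_le_sum
        intro k hk'
        rw [Finset.mem_range] at hk'
        refine (hk k).trans ?_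
        gcongr
        omega
    _ = _ := by rw [Finset.sum_const, Finset.card_range, nsmul_eq_mul]

end Pool.Agent.Y400.SG
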